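import Mathlib

set_option autoImplicit false

namespace Pool.Agent.Results.MP_e1e5e2_ag.Embedded

open MvPolynomial

/-- The Lovász–Saks–Schrijver ideal. -/
noncomputable def LSS (K : Type) [Field K] (d n : ℕ) (G : SimpleGraph (Fin n)) :
    Ideal (MvPolynomial (Fin d × Fin n) K) :=
  Ideal.span {f | ∃ j k, G.Adj j k ∧ f = ∑ i, X (i, j) * X (i, k)}

/-- Edge list. -/
def E : List (Fin 7 × Fin 7) :=
  [(0, 1), (0, 4), (0, 5), (0, 2), (1, 4), (1, 2), (4, 3), (5, 3), (4, 5), (6, 4), (6, 2), (6, 3)]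

/-- The graph. -/
def G : SimpleGraph (Fin 7) := SimpleGraph.fromRel fun j k => (j, k) ∈ E

theorem le_ker {A : Type} [CommRing A] (φ : MvPolynomial (Fin 3 × Fin 7) ℂ →+* A)
    (h : ∀ e ∈ E, ∑ i, φ (X (i, e.1)) * φ (X (i, e.2)) = 0) : LSS ℂ 3 7 G ≤ RingHom.ker φ := by
  refine Ideal.span_le.2 ?_
  rintro _ ⟨j, k, ⟨-, h1 | h1⟩, rfl⟩
  · simpa using h _ h1
  · simpa [mul_comm] using h _ h1

theorem mem (j k : Fin 7) (h : (j, k) ∈ E) : X (0, j) * X (0, k) + X (1, j) * X (1, k) +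
    X (2, j) * X (2, k) ∈ LSS ℂ 3 7 G :=
  Ideal.subset_span ⟨j, k, ⟨by revert j k; decide, .inl h⟩, by rw [Fin.sum_univ_three]⟩

open DualNumber TrivSqZeroExt Complex in
/-- A point over the dual numbers. -/
noncomputable def pt : Fin 3 × Fin 7 → DualNumber ℂ := fun v =>
  !![1, 1, 0, ε, 1, 1, 0; inl I, inl I, 0, 0, inl I, inl I, 0; 0, 0, 1, 1, -ε, -ε, 0] v.1 v.2

theorem cr {A : Type} [CommRing A] {v0 v1 v2 m0 m1 m2 n0 n1 n2 : A}
    (h1 : n0 * v0 + n1 * v1 + n2 * v2 = 0) (h2 : n0 * m0 + n1 * m1 + n2 * m2 = 0) :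
    (v2 * m0 - v0 * m2) * n2 = (v0 * m1 - v1 * m0) * n1 ∧
    (v0 * m1 - v1 * m0) * n0 = (v1 * m2 - v2 * m1) * n2 ∧
    (v1 * m2 - v2 * m1) * n1 = (v2 * m0 - v0 * m2) * n0 :=
  ⟨by linear_combination m0 * h1 - v0 * h2, by linear_combination m1 * h1 - v1 * h2,
    by linear_combination m2 * h1 - v2 * h2⟩

theorem par {A : Type} [CommRing A] {v0 v1 v2 m0 m1 m2 n0 n1 n2 y0 y1 y2 : A} (p0 p1 p2 : A)
    (h1 : n0 * v0 + n1 * v1 + n2 * v2 = 0) (h2 : n0 * m0 + n1 * m1 + n2 * m2 = 0)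
    (h3 : y0 * v0 + y1 * v1 + y2 * v2 = 0) (h4 : y0 * m0 + y1 * m1 + y2 * m2 = 0)
    (h5 : y0 * p0 + y1 * p1 + y2 * p2 = 0) :
    (v2 * m0 - v0 * m2) * y0 * (n0 * p0 + n1 * p1 + n2 * p2) = 0 := by
  obtain ⟨a1, a2, a3⟩ := cr h1 h2
  obtain ⟨b1, b2, b3⟩ := cr h3 h4
  linear_combination p1 * (y1 * a3 - n1 * b3) + p2 * (-n2 * b3 - y1 * a2 - n0 * b1) +
    (v2 * m0 - v0 * m2) * n0 * h5

theorem deform {A : Type} [CommRing A] (x : Fin 3 × Fin 7 → A)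
    (r : ∀ j k, (j, k) ∈ E → x (0, j) * x (0, k) + x (1, j) * x (1, k) + x (2, j) * x (2, k) = 0)
    (e3 : x (0, 0) * x (0, 3) + x (1, 0) * x (1, 3) + x (2, 0) * x (2, 3) = 0) : ∀ e ∈ E,
    ∑ i : Fin 3, (Polynomial.C (x (i, e.1)) +
      if e.1 = 6 then Polynomial.C (x (i, 0)) * Polynomial.X else 0) * (Polynomial.C (x (i, e.2)) +
      if e.2 = 6 then Polynomial.C (x (i, 0)) * Polynomial.X else 0) = 0 := fun e he => by
  have h1 := congrArg Polynomial.C (r e.1 e.2 he)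
  have h2 : e.1 = 6 → x (0, 0) * x (0, e.2) + x (1, 0) * x (1, e.2) + x (2, 0) * x (2, e.2) = 0 := by
    intro h
    have : e.2 = 4 ∨ e.2 = 2 ∨ e.2 = 3 := by
      clear h1
      revert e
      decide
    rcases this with h | h | h <;> rw [h]
    exacts [r 0 4 (by decide), r 0 2 (by decide), e3]
  have h3 : e.2 ≠ 6 := by
    clear h1 h2
    revert e
    decide
  simp only [Fin.sum_univ_three, if_neg h3]
  simp only [map_add, map_mul, map_zero] at h1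
  split_ifs with h
  · have h4 := congrArg Polynomial.C (h2 h)
    simp only [map_add, map_mul, map_zero] at h4
    linear_combination h1 + Polynomial.X * h4
  · linear_combination h1

theorem final {A : Type} [CommRing A] [IsDomain A] (π : MvPolynomial (Fin 3 × Fin 7) ℂ →+* A)
    (r : ∀ j k, (j, k) ∈ E → π (X (0, j)) * π (X (0, k)) + π (X (1, j)) * π (X (1, k)) +
      π (X (2, j)) * π (X (2, k)) = 0)
    (e3 : π (X (0, 0)) * π (X (0, 3)) + π (X (1, 0)) * π (X (1, 3)) +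
      π (X (2, 0)) * π (X (2, 3)) = 0) (y0 : π (X (0, 6)) = 0) (c3 : π (X (0, 0)) ≠ 0) :
    ∃ P : Ideal (MvPolynomial (Fin 3 × Fin 7) ℂ), P.IsPrime ∧ LSS ℂ 3 7 G ≤ P ∧
      P ≤ RingHom.ker π ∧ X (0, 6) ∉ P := by
  obtain ⟨θ, h1, h2⟩ : ∃ θ : MvPolynomial (Fin 3 × Fin 7) ℂ →+* Polynomial A,
      (∀ a, θ (C a) = Polynomial.C (π (C a))) ∧ ∀ v, θ (X v) = Polynomial.C (π (X v)) +
      if v.2 = 6 then Polynomial.C (π (X (v.1, 0))) * Polynomial.X else 0 :=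
    ⟨eval₂Hom (Polynomial.C.comp (π.comp C)) fun v => Polynomial.C (π (X v)) +
      if v.2 = 6 then Polynomial.C (π (X (v.1, 0))) * Polynomial.X else 0, by simp, by simp⟩
  have t2 : (Polynomial.evalRingHom 0).comp θ = π := by
    ext v
    · simp [h1]
    · simp only [RingHom.comp_apply, h2]
      split_ifs <;> simp
  refine ⟨RingHom.ker θ, RingHom.ker_isPrime θ, le_ker _ fun e he => ?_, fun s hs => ?_, ?_⟩
  · simp only [h2]
    exact deform (fun v => π (X v)) r e3 e he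
  · rw [RingHom.mem_ker, ← t2, RingHom.comp_apply, RingHom.mem_ker.1 hs, map_zero]
  · simp [h2, y0, c3]

theorem result : ∃ (d n : ℕ) (G : SimpleGraph (Fin n)), 1 ≤ d ∧
    ∃ Q : Ideal (MvPolynomial (Fin d × Fin n) ℂ), Q.IsPrime ∧
      (∃ f, Q = (LSS ℂ d n G).colon {f}) ∧ Q ∉ (LSS ℂ d n G).minimalPrimes := by
  refine ⟨3, 7, G, by norm_num, ?_⟩
  let ψ := (aeval (R := ℂ) pt).toRingHom
  let ψ0 := (TrivSqZeroExt.fstHom ℂ ℂ ℂ).toRingHom.comp ψ
  have hψ : LSS ℂ 3 7 G ≤ RingHom.ker ψ := le_ker _ <| by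
    simp only [E, List.forall_mem_cons, Fin.sum_univ_three]
    refine ⟨?_, ?_, ?_, ?_, ?_, ?_, ?_, ?_, ?_, ?_, ?_, ?_, by simp⟩ <;> ext <;> simp [ψ, pt]
  set f : MvPolynomial (Fin 3 × Fin 7) ℂ :=
    X (0, 0) * X (0, 3) + X (1, 0) * X (1, 3) + X (2, 0) * X (2, 3) with hf
  have := RingHom.ker_isPrime ψ0
  obtain ⟨Q, hQ, hQm⟩ := Ideal.exists_minimalPrimes_le (I := (LSS ℂ 3 7 G).colon {f})
    (J := RingHom.ker ψ0) fun s hs => by
      have := congrArg TrivSqZeroExt.snd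
        (RingHom.mem_ker.1 (hψ (Submodule.mem_colon_singleton.1 hs)))
      simpa [ψ, ψ0, hf, pt] using this
  refine ⟨Q, hQ.1.1, Submodule.exists_eq_colon_of_mem_minimalPrimes hQ, fun hmin => ?_⟩
  have := hQ.1.1
  let π := Ideal.Quotient.mk Q
  have nz : ∀ s, ψ0 s ≠ 0 → π s ≠ 0 := fun s hs h =>
    hs (hQm (Ideal.Quotient.eq_zero_iff_mem.1 h))
  have rel : ∀ {A : Type} [CommRing A] (φ : MvPolynomial (Fin 3 × Fin 7) ℂ →+* A),
      LSS ℂ 3 7 G ≤ RingHom.ker φ → ∀ j k, (j, k) ∈ E → φ (X (0, j)) * φ (X (0, k)) +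
      φ (X (1, j)) * φ (X (1, k)) + φ (X (2, j)) * φ (X (2, k)) = 0 := fun φ h j k e => by
    simpa using h (mem j k e)
  have r := rel π (by simpa [π] using hmin.1.2)
  have r' := rel (Ideal.Quotient.mk (LSS ℂ 3 7 G)) (by simp)
  have c1 := nz (X (2, 4) * X (0, 2) - X (0, 4) * X (2, 2)) (by simp [ψ0, ψ, pt])
  have c2 := nz (X (2, 0) * X (0, 3) - X (0, 0) * X (2, 3)) (by simp [ψ0, ψ, pt])
  have c3 := nz (X (0, 0)) (by simp [ψ0, ψ, pt])
  have c4 := nz (X (0, 1)) (by simp [ψ0, ψ, pt])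
  have c5 := nz (X (0, 5)) (by simp [ψ0, ψ, pt])
  have c6 := nz (X (1, 4)) (by simp [ψ0, ψ, pt])
  have y0 : π (X (0, 6)) = 0 := by
    have : (X (2, 4) * X (0, 2) - X (0, 4) * X (2, 2)) * X (0, 6) ∈ Q := by
      refine hQ.1.2 (Submodule.mem_colon_singleton.2 (Ideal.Quotient.eq_zero_iff_mem.1 ?_))
      simpa [hf] using par _ _ _ (r' 0 4 (by decide)) (r' 0 2 (by decide)) (r' 6 4 (by decide))
        (r' 6 2 (by decide)) (r' 6 3 (by decide))
    have := Ideal.Quotient.eq_zero_iff_mem.2 this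
    rw [map_mul] at this
    exact (mul_eq_zero.1 this).resolve_left c1
  simp only [map_sub, map_mul] at c1 c2
  have r04 := r 0 4 (by decide)
  have r02 := r 0 2 (by decide)
  have r43 := r 4 3 (by decide)
  have e1 := (mul_eq_zero.1 (par _ _ _ r04 r02 (r 1 4 (by decide)) (r 1 2 (by decide))
    (by simpa only [mul_comm] using r 0 1 (by decide)))).resolve_left (mul_ne_zero c1 c4)
  have r40 := (by simpa only [mul_comm] using r04 : π (X (0, 4)) * π (X (0, 0)) +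
    π (X (1, 4)) * π (X (1, 0)) + π (X (2, 4)) * π (X (2, 0)) = 0)
  have e2 := (mul_eq_zero.1 (par _ _ _ r40 r43 (by simpa only [mul_comm] using r 0 5 (by decide))
    (r 5 3 (by decide)) (by simpa only [mul_comm] using r 4 5 (by decide)))).resolve_left
    (mul_ne_zero c2 c5)
  obtain ⟨a1, -, a3⟩ := cr r40 r43
  have e3 : π (X (0, 0)) * π (X (0, 3)) + π (X (1, 0)) * π (X (1, 3)) +
      π (X (2, 0)) * π (X (2, 3)) = 0 := by
    refine pow_eq_zero_iff (n := 2) (by norm_num) |>.1 <|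
      (mul_eq_zero.1 ?_).resolve_left (pow_ne_zero 2 c6)
    generalize π (X (0, 0)) = n0, π (X (1, 0)) = n1, π (X (2, 0)) = n2, π (X (0, 3)) = p0,
      π (X (1, 3)) = p1, π (X (2, 3)) = p2, π (X (0, 4)) = v0, π (X (1, 4)) = v1,
      π (X (2, 4)) = v2 at *
    linear_combination v1 ^ 2 * (p0 * p0 + p1 * p1 + p2 * p2) * e1 - (n2 * p0 - n0 * p2) ^ 2 * e2 +
      ((n2 * p0 - n0 * p2) * v2 + (n0 * p1 - n1 * p0) * v1) * a1 -
      ((n1 * p2 - n2 * p1) * v1 + (n2 * p0 - n0 * p2) * v0) * a3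
  obtain ⟨P, p1, p2, p3, p4⟩ := final π r e3 y0 c3
  exact p4 (hmin.2 ⟨p1, p2⟩ (by simpa [π] using p3) (Ideal.Quotient.eq_zero_iff_mem.1 y0))

end Pool.Agent.Results.MP_e1e5e2_ag.Embedded
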